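import Pool.Agent.Y638.RF.Xor
import Pool.Agent.TH272.Shr.MinPlusHeavy

set_option autoImplicit false

/-! # Products `u_iᵀ M v_i` over `ZMod 2`: circuits with shared gates -/

namespace Pool.Agent.R617.SHX

open Finset Pool.Agent.TH697.Row
open Pool.Agent.TH697.Form (IsProb)
open Pool.Agent.TH272.Shr
open Pool.Agent.TH272.Shr.ZeroSum (numbers)
open Pool.Agent.TH457.Ary (Queries queries_of_update)
open Pool.Agent.Y638.RF.Xor (Item product enc ask product_enc sum_eq_card)

variable {n c w : ℕ} {Ω : Type} [Fintype Ω]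

theorem queries (i : Fin n) :
    Queries (Fin n × Fin n) id (fun _ => True) (product n) (some i) :=
  queries_of_update (fun _ => True) (product n) (some i) (fun _ => 0) (fun t _ => ask t) enc
    (fun _ _ _ _ => rfl) (fun _ _ => trivial) (fun t z => product_enc i t z)

theorem arith {n c w E R S : ℝ} (hn : 5 ≤ n) (hc : 1 ≤ c) (hw : 1 ≤ w) (hE : 0 ≤ E)
    (hS : 0 ≤ S)
    (h : n * (49 / 600 * n ^ 2 - 1) ≤ w * (4 + (w - 1) * c) * E + 1 * (4 * R + S)) :
    n ^ 3 ≤ 100 * c * w ^ 2 * E + 100 * (R + S) := by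
  have h0 : 25 ≤ n ^ 2 := by nlinarith
  have h1 : n ^ 2 / 25 ≤ 49 / 600 * n ^ 2 - 1 := by nlinarith
  have h2 : n * (n ^ 2 / 25) ≤ n * (49 / 600 * n ^ 2 - 1) :=
    mul_le_mul_of_nonneg_left h1 (by linarith)
  have h3 : w * (4 + (w - 1) * c) ≤ 4 * c * w ^ 2 := by
    have h4 : 0 ≤ (w - 1) * c := mul_nonneg (by linarith) (by linarith)
    calc w * (4 + (w - 1) * c) ≤ w * (4 * c * w) :=
          mul_le_mul_of_nonneg_left (by nlinarith) (by linarith)
      _ = _ := by ring
  have h4 := mul_le_mul_of_nonneg_right h3 hE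
  have e1 : n * (n ^ 2 / 25) = n ^ 3 / 25 := by ring
  rw [e1] at h2
  have e2 : 4 * c * w ^ 2 * E = 4 * (c * w ^ 2 * E) := by ring
  have e3 : 100 * c * w ^ 2 * E = 100 * (c * w ^ 2 * E) := by ring
  rw [e2] at h4
  rw [e3]
  linarith

theorem card_T : ((Fintype.card (Fin n × Fin n) : ℕ) : ℝ) = (n : ℝ) ^ 2 := by
  rw [Fintype.card_prod, Fintype.card_fin]
  push_cast
  ring

theorem main_heavy (hn : 5 ≤ n) (hc : 1 ≤ c) (hw : 1 ≤ w) (μ : Ω → ℝ)
    (hμ : IsProb μ) (C : Ω → Circuit (Option (Fin n)) (Item n) w (2 ^ c))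
    (hC : ApproximatesOn μ (fun ω => (C ω).eval) (fun _ => True) (product n)) (d : ℕ) :
    (n : ℝ) ^ 3 ≤ 100 * c * w ^ 2 * mean μ (fun ω => (C ω).leaves) +
        100 * (d * (mean μ (fun ω => (C ω).refs) + mean μ (fun ω => (C ω).shared)) +
          n * (mean μ (fun ω => (C ω).heavyRefs (numbers n) d) +
            mean μ (fun ω => (C ω).heavyGates (numbers n) d))) := by
  classical
  have h := circuit_heavy μ hμ C (fun _ => True) (product n) hC
    Nat.one_le_two_pow hw (numbers n) d (T := Fin n × Fin n) (by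
      intro a ha
      rw [numbers, mem_map] at ha
      obtain ⟨i, -, rfl⟩ := ha
      exact queries i)
  have hcd : (numbers n).card = n := by rw [numbers, card_map, card_univ, Fintype.card_fin]
  have e1 : Real.logb 2 ((2 ^ c : ℕ) : ℝ) = c := by
    push_cast
    exact Pool.Agent.TH457.Ary.OuMv.logb_two_pow' c
  rw [hcd, card_T, e1] at h
  have h2 := arith (by exact_mod_cast hn) (by exact_mod_cast hc) (by exact_mod_cast hw)
    (mean_nonneg μ hμ _) le_rfl h
  linarith

theorem single_heavy (hn : 5 ≤ n) (μ : Ω → ℝ)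
    (hμ : IsProb μ) (C : Ω → Circuit (Option (Fin n)) (Item n) 1 2)
    (hC : ApproximatesOn μ (fun ω => (C ω).eval) (fun _ => True) (product n)) (d : ℕ) :
    (n : ℝ) ^ 3 ≤ 100 * (mean μ (fun ω => (C ω).leaves) +
      d * (mean μ (fun ω => (C ω).refs) + mean μ (fun ω => (C ω).shared)) +
      n * (mean μ (fun ω => (C ω).heavyRefs (numbers n) d) +
        mean μ (fun ω => (C ω).heavyGates (numbers n) d))) := by
  have h := main_heavy (c := 1) (w := 1) hn le_rfl le_rfl μ hμ C hC d
  push_cast at h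
  linarith

/-! ## the upper bound -/

open Pool.Agent.TH697.Form (Fml)

theorem exists_xor {ι κ : Type} {D : ι → Type} [DecidableEq κ] (s : Finset κ) (hs : s.Nonempty)
    (F : κ → Fml ι D) : ∃ G : Fml ι D,
      (∀ x, G.eval x = true ↔ (s.filter (fun a => (F a).eval x = true)).card % 2 = 1) ∧
      G.size = ∑ a ∈ s, (F a).size := by
  induction hs using Finset.Nonempty.cons_induction with
  | singleton a =>
    refine ⟨F a, fun x => ?_, by rw [sum_singleton]⟩
    rw [filter_singleton]
    split_ifs with h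
    · simp [h]
    · simp [h]
  | cons a s ha hs ih =>
    obtain ⟨G, h1, h2⟩ := ih
    refine ⟨.gate xor (F a) G, fun x => ?_, ?_⟩
    · have e : (Fml.gate xor (F a) G).eval x = xor ((F a).eval x) (G.eval x) := rfl
      rw [e, filter_cons]
      have h3 := h1 x
      cases hF : (F a).eval x with
      | true =>
        rw [if_pos rfl, card_cons]
        cases hG : G.eval x with
        | true =>
          have h4 := h3.1 hG
          simp only [Bool.xor_self, Bool.false_eq_true, false_iff]
          omega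
        | false =>
          have h4 : ¬ (s.filter (fun a => (F a).eval x = true)).card % 2 = 1 := by
            intro h
            rw [h3.2 h] at hG
            exact Bool.noConfusion hG
          simp only [Bool.xor_false, true_iff]
          omega
      | false =>
        rw [if_neg (by simp)]
        rw [← h3]
        simp
    · have e : (Fml.gate xor (F a) G).size = (F a).size + G.size := rfl
      rw [e, sum_cons, h2]

theorem upper (hn : 1 ≤ n) : ∃ C : Circuit (Option (Fin n)) (Item n) 1 2,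
    (∀ x, C.eval x = product n x) ∧ C.shared = 0 ∧ C.refs = 0 ∧ C.leaves = 2 * n ^ 3 := by
  classical
  have : NeZero n := ⟨by omega⟩
  obtain ⟨A, hA⟩ : ∃ A : Fin n → Fin n × Fin n → Fml (Option (Fin n)) (Item n),
      A = fun i p => .gate and (.leaf (some i) (fun d => decide (d.1 p.1 * d.2 p.2 = 1)))
        (.leaf none (fun M => decide (M p.1 p.2 = 1))) := ⟨_, rfl⟩
  have hA1 : ∀ i p x, (A i p).eval x = true ↔
      (x (some i)).1 p.1 * (x none) p.1 p.2 * (x (some i)).2 p.2 = 1 := by
    intro i p x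
    rw [hA]
    change (decide ((x (some i)).1 p.1 * (x (some i)).2 p.2 = 1) &&
      decide ((x none) p.1 p.2 = 1)) = true ↔ _
    rw [Bool.and_eq_true, decide_eq_true_iff, decide_eq_true_iff]
    have key : ∀ a b c : ZMod 2, (a * b = 1 ∧ c = 1) ↔ a * c * b = 1 := by decide
    exact key _ _ _
  have hA2 : ∀ i p, (A i p).size = 2 := by
    intro i p
    rw [hA]
    rfl
  choose X hX1 hX2 using fun i : Fin n => exists_xor (univ : Finset (Fin n × Fin n))
    ⟨(0, 0), mem_univ _⟩ (A i)
  obtain ⟨G, h1, h2⟩ := Pool.Agent.TH697.Form.exists_or (univ : Finset (Fin n))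
    ⟨0, mem_univ _⟩ X
  obtain ⟨C, c1, c2, c3, c4⟩ := exists_circuit G
  refine ⟨C, fun x => ?_, c2, c3, ?_⟩
  · rw [c1, Bool.eq_iff_iff, h1]
    unfold product
    rw [decide_eq_true_iff]
    simp only [mem_univ, true_and]
    apply exists_congr
    intro i
    rw [hX1]
    have e1 : ∑ j : Fin n, ∑ k : Fin n,
        (x (some i)).1 j * (x none) j k * (x (some i)).2 k =
        ∑ p : Fin n × Fin n, (x (some i)).1 p.1 * (x none) p.1 p.2 * (x (some i)).2 p.2 :=
      (Fintype.sum_prod_type (f := fun p : Fin n × Fin n =>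
        (x (some i)).1 p.1 * (x none) p.1 p.2 * (x (some i)).2 p.2)).symm
    rw [e1, sum_eq_card]
    simp only [hA1]
    obtain ⟨N, hN⟩ : ∃ N, N = (univ.filter (fun p : Fin n × Fin n =>
      (x (some i)).1 p.1 * (x none) p.1 p.2 * (x (some i)).2 p.2 = 1)).card := ⟨_, rfl⟩
    rw [← hN]
    have := ZMod.natCast_eq_natCast_iff' N 1 2
    simpa using this.symm
  · rw [c4, h2]
    simp only [hX2, hA2, sum_const, card_univ, Fintype.card_prod, Fintype.card_fin, smul_eq_mul]
    ring

end Pool.Agent.R617.SHX
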